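import Pool.Agent.Q188.HQ.Main

/-!
# A hyperfield that is a quotient of a skew field but not of a field

The quotient of Hamilton's quaternions over `ℚ` by the group of quaternions of norm `1` is not
isomorphic to a quotient `K/Δ` of a commutative field `K`.

Proof. The classes are given by the norms, which are all nonnegative rational numbers (four
squares). An isomorphism with `K/Δ` gives a multiplicative map `φ : K → ℚ`, and `√φ` is an absolute
value of `K`. There are `x, y` in `K` with `φ(x) = φ(y) = 1` and `φ(x + y) = 4`; the binomial theorem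
gives `φ(n) = n²`, so the absolute value is archimedean and `K` embeds in `ℂ` with `φ(x) = |x|²`
(Ostrowski; here by Mathlib's Gelfand-Mazur theorem). As all `|x|²` are rational, the real parts of
the elements of `K` are rational and `K` is `ℚ` or imaginary quadratic. But the norms from an
imaginary quadratic field do not exhaust the positive rational numbers.
-/

set_option autoImplicit false

universe u v

namespace Pool.Agent.Results.MP_4a7e1d_al.RationalQuaternions

/-- `x ~ y` if and only if `y ∈ xΓ` -/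
def cosetRel {F : Type u} [DivisionRing F] (Γ : Subgroup Fˣ) : Setoid F where
  r x y := ∃ γ ∈ Γ, y = x * (γ : F)
  iseqv :=
    { refl := fun x => ⟨1, Γ.one_mem, by simp⟩
      symm := by
        rintro x y ⟨γ, hγ, rfl⟩
        exact ⟨γ⁻¹, Γ.inv_mem hγ, by rw [mul_assoc, Units.mul_inv, mul_one]⟩
      trans := by
        rintro x y z ⟨γ, hγ, rfl⟩ ⟨δ, hδ, rfl⟩
        exact ⟨γ * δ, Γ.mul_mem hγ hδ, by rw [Units.val_mul, mul_assoc]⟩ }

/-- The set `F/Γ = {0} ∪ Fˣ/Γ`. -/
def HQuot {F : Type u} [DivisionRing F] (Γ : Subgroup Fˣ) : Type u := Quotient (cosetRel Γ)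

/-- The class `[x]`. -/
def cl {F : Type u} [DivisionRing F] (Γ : Subgroup Fˣ) (x : F) : HQuot Γ := Quotient.mk (cosetRel Γ) x

/-- The multiplication `[x][y] = [xy]`. -/
def mul {F : Type u} [DivisionRing F] {Γ : Subgroup Fˣ} [hΓ : Γ.Normal] (p q : HQuot Γ) : HQuot Γ :=
  Quotient.map₂ (· * ·) (by
    rintro x _ ⟨γ, hγ, rfl⟩ y _ ⟨δ, hδ, rfl⟩
    rcases eq_or_ne y 0 with rfl | hy
    · exact ⟨1, Γ.one_mem, by simp⟩
    · refine ⟨(Units.mk0 y hy)⁻¹ * γ * (Units.mk0 y hy) * δ,
        Γ.mul_mem (by simpa using hΓ.conj_mem γ hγ (Units.mk0 y hy)⁻¹) hδ, ?_⟩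
      simp only [Units.val_mul, Units.val_inv_eq_inv_val, Units.val_mk0]
      rw [mul_assoc x y, mul_assoc (y⁻¹) (γ : F) y, mul_assoc (y⁻¹) ((γ : F) * y), ← mul_assoc y y⁻¹,
        mul_inv_cancel₀ hy, one_mul, mul_assoc, mul_assoc]) p q

/-- The hyperaddition `[x] ⊞ [y] = {[x' + y'] : x' ∈ xΓ, y' ∈ yΓ}`. -/
def hyperadd {F : Type u} [DivisionRing F] {Γ : Subgroup Fˣ} (p q : HQuot Γ) : Set (HQuot Γ) :=
  {r | ∃ x y, cl Γ x = p ∧ cl Γ y = q ∧ cl Γ (x + y) = r}

/-- Isomorphisms of the hyperfields `F/Γ` and `K/Δ`. -/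
structure HIso {F : Type u} {K : Type v} [DivisionRing F] [DivisionRing K] (Γ : Subgroup Fˣ)
    (Δ : Subgroup Kˣ) [Γ.Normal] [Δ.Normal] where
  /-- the bijection -/
  f : HQuot Γ ≃ HQuot Δ
  map_zero : f (cl Γ 0) = cl Δ 0
  map_mul : ∀ p q, f (mul p q) = mul (f p) (f q)
  map_hyperadd : ∀ p q, f '' hyperadd p q = hyperadd (f p) (f q)

/-- The group of the rational Hamilton quaternions of norm `1`. -/
def normOne : Subgroup (Quaternion ℚ)ˣ where
  carrier := {x | Quaternion.normSq (x : Quaternion ℚ) = 1}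
  mul_mem' := by
    intro x y hx hy
    simp only [Set.mem_ofPred_eq] at *
    rw [Units.val_mul, map_mul, hx, hy, mul_one]
  one_mem' := by simp
  inv_mem' := by
    intro x hx
    simp only [Set.mem_ofPred_eq] at *
    rw [Units.val_inv_eq_inv_val, map_inv₀, hx, inv_one]

theorem mem_normOne (x : (Quaternion ℚ)ˣ) :
    x ∈ normOne ↔ Quaternion.normSq (x : Quaternion ℚ) = 1 := Iff.rfl

instance : normOne.Normal where
  conj_mem := by
    intro x hx y
    rw [mem_normOne] at *
    rw [Units.val_mul, Units.val_mul, map_mul, map_mul, hx, mul_one, ← map_mul, Units.mul_inv,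
      map_one]

/-! ### proof -/

theorem cl_eq {F : Type u} [DivisionRing F] (Γ : Subgroup Fˣ) {x y : F} :
    cl Γ x = cl Γ y ↔ ∃ γ ∈ Γ, y = x * (γ : F) := Quotient.eq (r := cosetRel Γ)

theorem cl_eq_zero {F : Type u} [DivisionRing F] (Γ : Subgroup Fˣ) {x : F} :
    cl Γ x = cl Γ 0 ↔ x = 0 := by
  constructor
  · intro h
    obtain ⟨γ, -, h⟩ := (cl_eq Γ).mp h
    exact (mul_eq_zero.mp h.symm).resolve_right γ.ne_zero
  · rintro rfl
    rfl

/-- the norm of a class -/
noncomputable def Nb : HQuot normOne → ℚ :=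
  Quotient.lift (fun x : Quaternion ℚ => Quaternion.normSq x) (by
    rintro x _ ⟨γ, hγ, rfl⟩
    rw [map_mul, (mem_normOne γ).mp hγ, mul_one])

theorem Nb_cl (x : Quaternion ℚ) : Nb (cl normOne x) = Quaternion.normSq x := rfl

theorem Nb_mul (p q : HQuot normOne) : Nb (mul p q) = Nb p * Nb q := by
  induction p using Quotient.inductionOn
  induction q using Quotient.inductionOn
  exact map_mul Quaternion.normSq _ _

theorem Nb_eq_zero (p : HQuot normOne) : Nb p = 0 ↔ p = cl normOne 0 := by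
  induction p using Quotient.inductionOn with
  | h x =>
    show Quaternion.normSq x = 0 ↔ cl normOne x = cl normOne 0
    rw [cl_eq_zero, Quaternion.normSq_eq_zero]

theorem Nb_nonneg (p : HQuot normOne) : 0 ≤ Nb p := by
  induction p using Quotient.inductionOn with
  | h x => exact Quaternion.normSq_nonneg

/-- the triangle inequality -/
theorem tri (u v : Quaternion ℚ) : Real.sqrt (Quaternion.normSq (u + v) : ℚ) ≤
    Real.sqrt (Quaternion.normSq u : ℚ) + Real.sqrt (Quaternion.normSq v : ℚ) := by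
  have hcs : (u.re * v.re + u.imI * v.imI + u.imJ * v.imJ + u.imK * v.imK) ^ 2 ≤
      Quaternion.normSq u * Quaternion.normSq v := by
    rw [Quaternion.normSq_def', Quaternion.normSq_def']
    nlinarith [sq_nonneg (u.re * v.imI - u.imI * v.re), sq_nonneg (u.re * v.imJ - u.imJ * v.re),
      sq_nonneg (u.re * v.imK - u.imK * v.re), sq_nonneg (u.imI * v.imJ - u.imJ * v.imI),
      sq_nonneg (u.imI * v.imK - u.imK * v.imI), sq_nonneg (u.imJ * v.imK - u.imK * v.imJ)]
  set c : ℚ := u.re * v.re + u.imI * v.imI + u.imJ * v.imJ + u.imK * v.imK with hc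
  have hsum : Quaternion.normSq (u + v) = Quaternion.normSq u + Quaternion.normSq v + 2 * c := by
    rw [Quaternion.normSq_def', Quaternion.normSq_def', Quaternion.normSq_def', hc]
    simp only [Quaternion.re_add, Quaternion.imI_add, Quaternion.imJ_add, Quaternion.imK_add]
    ring
  have hu : (0 : ℝ) ≤ (Quaternion.normSq u : ℚ) := by exact_mod_cast Quaternion.normSq_nonneg
  have hv : (0 : ℝ) ≤ (Quaternion.normSq v : ℚ) := by exact_mod_cast Quaternion.normSq_nonneg
  apply Real.sqrt_le_iff.mpr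
  refine ⟨by positivity, ?_⟩
  rw [add_sq, Real.sq_sqrt hu, Real.sq_sqrt hv, hsum, mul_assoc, ← Real.sqrt_mul hu]
  have h1 : (c : ℝ) ≤ Real.sqrt ((Quaternion.normSq u : ℚ) * (Quaternion.normSq v : ℚ)) := by
    apply Real.le_sqrt_of_sq_le
    exact_mod_cast hcs
  push_cast
  linarith

/-- four squares -/
theorem exists_normSq (q : ℚ) (hq : 0 < q) : ∃ u : Quaternion ℚ, Quaternion.normSq u = q := by
  obtain ⟨a, b, c, d, h⟩ := Nat.sum_four_squares (q.num.natAbs * q.den)
  have hd : (q.den : ℚ) ≠ 0 := by exact_mod_cast q.den_nz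
  have h1 : (q.num.natAbs : ℚ) = q.num := by
    rw [Nat.cast_natAbs, abs_of_pos (Rat.num_pos.mpr hq)]
  have h2 : (a : ℚ) ^ 2 + b ^ 2 + c ^ 2 + d ^ 2 = q.num * q.den := by
    rw [← h1]
    exact_mod_cast h
  have h3 : q * q.den = q.num := Rat.mul_den_eq_num q
  refine ⟨(⟨a / q.den, b / q.den, c / q.den, d / q.den⟩ : Quaternion ℚ), ?_⟩
  refine (Quaternion.normSq_def' _).trans ?_
  show ((a : ℚ) / q.den) ^ 2 + ((b : ℚ) / q.den) ^ 2 + ((c : ℚ) / q.den) ^ 2 +
    ((d : ℚ) / q.den) ^ 2 = q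
  rw [div_pow, div_pow, div_pow, div_pow, ← add_div, ← add_div, ← add_div, h2, ← h3]
  field_simp

/-- **The quotient of the rational Hamilton quaternions by the group of the quaternions of norm `1`
is not isomorphic to a quotient of a commutative field.** -/
theorem result :
    (∀ a b : (Quaternion ℚ)ˣ, a * b * a⁻¹ * b⁻¹ ∈ normOne) ∧
    ∀ (K : Type v) [Field K] (Δ : Subgroup Kˣ), IsEmpty (HIso normOne Δ) := by
  refine ⟨fun a b => ?_, fun K _ Δ => ⟨fun h => ?_⟩⟩
  · rw [mem_normOne]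
    have ha : Quaternion.normSq (a : Quaternion ℚ) * Quaternion.normSq ((a⁻¹ : (Quaternion ℚ)ˣ) : Quaternion ℚ) = 1 := by
      rw [← map_mul, Units.mul_inv, map_one]
    have hb : Quaternion.normSq (b : Quaternion ℚ) * Quaternion.normSq ((b⁻¹ : (Quaternion ℚ)ˣ) : Quaternion ℚ) = 1 := by
      rw [← map_mul, Units.mul_inv, map_one]
    simp only [Units.val_mul, map_mul]
    rw [mul_right_comm (Quaternion.normSq (a : Quaternion ℚ)), ha, one_mul, hb]
  · have hsym : ∀ p, h.f (h.f.symm p) = p := fun p => h.f.apply_symm_apply p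
    have hex : ∀ p : HQuot Δ, ∃ x, cl Δ x = p := fun p => Quotient.exists_rep p
    refine Pool.Agent.Q188.HQ.main (fun x : K => Nb (h.f.symm (cl Δ x))) (fun x => Nb_nonneg _) ?_ ?_
      ?_ ?_ ?_
    · intro x
      rw [Nb_eq_zero, Equiv.symm_apply_eq, h.map_zero, cl_eq_zero]
    · intro x y
      have h1 : h.f.symm (cl Δ (x * y)) = mul (h.f.symm (cl Δ x)) (h.f.symm (cl Δ y)) := by
        rw [Equiv.symm_apply_eq, h.map_mul, hsym, hsym]
        rfl
      simp only [h1, Nb_mul]
    · intro x y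
      have h1 : cl Δ (x + y) ∈ hyperadd (h.f (h.f.symm (cl Δ x))) (h.f (h.f.symm (cl Δ y))) :=
        ⟨x, y, (hsym _).symm, (hsym _).symm, rfl⟩
      rw [← h.map_hyperadd] at h1
      obtain ⟨r, ⟨u, v, hu, hv, huv⟩, hr⟩ := h1
      rw [← hr, Equiv.symm_apply_apply, ← huv, ← hu, ← hv, Nb_cl, Nb_cl, Nb_cl]
      exact tri u v
    · intro q hq
      obtain ⟨u, hu⟩ := exists_normSq q hq
      obtain ⟨x, hx⟩ := hex (h.f (cl normOne u))
      exact ⟨x, by simp only [hx, Equiv.symm_apply_apply, Nb_cl, hu]⟩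
    · have h1 : h.f (cl normOne (1 + 1)) ∈ hyperadd (h.f (cl normOne 1)) (h.f (cl normOne 1)) := by
        rw [← h.map_hyperadd]
        exact ⟨_, ⟨1, 1, rfl, rfl, rfl⟩, rfl⟩
      obtain ⟨x, y, hx, hy, hxy⟩ := h1
      refine ⟨x, y, ?_, ?_, ?_⟩
      · simp only [hx, Equiv.symm_apply_apply, Nb_cl, map_one]
      · simp only [hy, Equiv.symm_apply_apply, Nb_cl, map_one]
      · simp only [hxy, Equiv.symm_apply_apply, Nb_cl]
        rw [Quaternion.normSq_def']
        simp only [Quaternion.re_add, Quaternion.imI_add, Quaternion.imJ_add, Quaternion.imK_add,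
          Quaternion.re_one, Quaternion.imI_one, Quaternion.imJ_one, Quaternion.imK_one]
        norm_num

end Pool.Agent.Results.MP_4a7e1d_al.RationalQuaternions
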